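import Pool.Agent.Helper64.FL.StC

set_option autoImplicit false

namespace Pool.Agent.Helper64.FL

open Pool.Agent.Helper64.CT Pool.Agent.Helper64.DT
open Pool.Agent.Helper64.HG (Ovl Model Circ IC HellyCircle ChordModel)

theorem st_CPT (hSGX : ST_SGX) (hFTH : ST_FTH) (hH1L : ST_H1L) (hCDX : ST_CDX)
    (hCQ2 : ST_CQ2) : ST_CPT := by
  intro V _ G hR hP hI hII hN
  by_cases h : (∀ Q, MaxC G Q → CQ G Q)
  · exact Or.inl h
  · right
    push Not at h
    obtain ⟨Q, hQ, hc⟩ := h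
    by_cases hB : Big Q
    · obtain ⟨σ, hE⟩ := hSGX V G Q hR hP hI hII hN hQ hB
      rcases hH1L V G Q σ hE with h1 | h1
      · exact Or.inl h1
      · rcases hFTH V G Q σ hE with ⟨n, θ, f, hL⟩ | h2
        · exact absurd (hCDX V G Q σ n θ f hE hL h1) hc
        · exact Or.inr h2
    · exact absurd (hCQ2 V G Q hR.df hII hQ hB) hc

end Pool.Agent.Helper64.FL
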