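import Pool.Agent.Helper64.FL.StH

/-! MP_866009_co, full list: module D1M (one dominating component). -/

set_option autoImplicit false

namespace Pool.Agent.Helper64.FL

open Pool.Agent.Helper64.CT Pool.Agent.Helper64.DT
open Pool.Agent.Helper64.HG (Ovl Model Circ IC HellyCircle ChordModel)

theorem d1m_nodup {V : Type} (G : SimpleGraph V) (A B : List V) (f : V)
    (h : IPt G (A ++ f :: B)) : (∀ x ∈ A, x ≠ f) ∧ ∀ x ∈ B, x ≠ f := by
  induction A with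
  | nil => exact ⟨fun x hx => absurd hx (by simp), fun x hx e => h.1 x hx e.symm⟩
  | cons a A ih =>
    obtain ⟨a1, a2, a3, a4⟩ := h
    obtain ⟨b1, b2⟩ := ih a4
    refine ⟨fun x hx => ?_, b2⟩
    rcases List.mem_cons.1 hx with e | e
    · rw [e]
      exact a1 f (by simp)
    · exact b1 x e

theorem d1m_main (h1 : ST_D1S) (h2 : ST_DI0) (h3 : ST_DI1) (h4 : ST_DI2) (h5 : ST_DJ0)
    (h6 : ST_DJ1) (V : Type) (G : SimpleGraph V) (x : V) (k : ℕ) (y : ℕ → V) (hR : Red G)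
    (hC : CI G) (hM : MOC G x k y) (hD : Dom0 G x k y) (hj : Dsj G x k y)
    (hu : ∀ u ∈ UU G x k y, ∀ n ∈ Att G x (y 1), G.Adj u n) : LadS G := by
  obtain ⟨u0, Lu, um, hP⟩ := h1 V G x k y hM hD hj hu
  by_cases hf : ∃ f ∈ Lu, f ∈ UU G x k y
  · obtain ⟨f, hf1, hf2⟩ := hf
    by_cases hg : ∃ g ∈ Lu, g ≠ f ∧ g ∈ UU G x k y
    · obtain ⟨g, hg1, hg2, hg3⟩ := hg
      exact (h4 V G x k y u0 Lu um hR hP ⟨f, hf1, g, hg1, hg2.symm, hf2, hg3⟩).elim
    · obtain ⟨l1, l2, hl⟩ := List.append_of_mem hf1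
      have hnd : (∀ z ∈ l1, z ≠ f) ∧ ∀ z ∈ l2, z ≠ f := by
        rcases hP.p.pth with ⟨-, e⟩ | ⟨-, e⟩
        · rw [e] at hf1
          exact absurd hf1 (by simp)
        · rw [hl] at e
          have e2 : IPt G ((u0 :: l1) ++ f :: (l2 ++ [um])) := by
            have e3 : (u0 :: l1) ++ f :: (l2 ++ [um]) = u0 :: (l1 ++ f :: l2 ++ [um]) := by simp
            rw [e3]
            exact e
          obtain ⟨b1, b2⟩ := d1m_nodup G (u0 :: l1) (l2 ++ [um]) f e2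
          exact ⟨fun z hz => b1 z (List.mem_cons_of_mem _ hz),
            fun z hz => b2 z (List.mem_append_left _ hz)⟩
      have k1 : ∀ u ∈ l1, u ∉ UU G x k y := fun u hu1 hu2 =>
        hg ⟨u, by rw [hl]; exact List.mem_append_left _ hu1, hnd.1 u hu1, hu2⟩
      have k2 : ∀ u ∈ l2, u ∉ UU G x k y := fun u hu1 hu2 =>
        hg ⟨u, by rw [hl]; exact List.mem_append_right _ (List.mem_cons_of_mem _ hu1),
          hnd.2 u hu1, hu2⟩
      rw [hl] at hP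
      by_cases h0 : u0 ∈ UU G x k y
      · exact (h6 V G x k y u0 l1 f l2 um hR hP h0 hf2 k1 k2).elim
      · exact h3 V G x k y u0 l1 f l2 um hR hP h0 hf2 k1 k2
  · have k1 : ∀ u ∈ Lu, u ∉ UU G x k y := fun u hu1 hu2 => hf ⟨u, hu1, hu2⟩
    by_cases h0 : u0 ∈ UU G x k y
    · exact h5 V G x k y u0 Lu um hR hC hP h0 k1
    · exact (h2 V G x k y u0 Lu um hR.df hC hP h0 k1).elim

theorem st_D1M (h0 : ST_CLX) (h1 : ST_D1S) (h2 : ST_DI0) (h3 : ST_DI1) (h4 : ST_DI2)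
    (h5 : ST_DJ0) (h6 : ST_DJ1) (h7 : ST_SHF) : ST_D1M := by
  intro V G x k y hR hC hM hD hj
  rcases h0 V G x k y hR.df hC hM hD with hu | hu
  · exact d1m_main h1 h2 h3 h4 h5 h6 V G x k y hR hC hM hD hj hu
  · obtain ⟨-, s2, -, s4, s5, -⟩ := h7 V G x k y hM
    obtain ⟨s6, s7, s8⟩ := s4 hD
    refine d1m_main h1 h2 h3 h4 h5 h6 V G x k (fun i => y ((k - 1) * i)) hR hC s2 s6 (s5 hj) ?_
    rw [s8]
    intro u hu1 n hn
    refine hu u hu1 n ?_
    have e : (k - 1) * 1 = k - 1 := Nat.mul_one _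
    have hn2 : n ∈ Att G x (y ((k - 1) * 1)) := hn
    rw [e] at hn2
    exact hn2

end Pool.Agent.Helper64.FL
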