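import Pool.Agent.Helper64.FL.StC

set_option autoImplicit false

namespace Pool.Agent.Helper64.FL

open Pool.Agent.Helper64.CT Pool.Agent.Helper64.DT
open Pool.Agent.Helper64.HG (Ovl Model Circ IC HellyCircle ChordModel)

theorem st_EWD (hNCF : ST_NCF) : ST_EWD := by
  intro V G Q σ hE a b y u u' w w' hab hy hya hyb ru ru' rw' rw'' c c'
  rcases hNCF V G Q hE.red.df hE.mx a y u u' b w b w' ru ru' hy hya rw' (Ne.symm hab)
    (Ne.symm hyb) c rw'' (Ne.symm hab) (Ne.symm hyb) c' with h | h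
  · rw [(hE.sg a u u' y ru ru' hy hya).1 h,
      (hE.sg b w w' y rw' rw'' hy hyb).1 (c.symm.trans (h.trans c'))]
  · have h1 := (hE.sg a u u' y ru ru' hy hya).2 h
    have h2 := (hE.sg b w w' y rw' rw'' hy hyb).2 (h.congr c c')
    revert h1 h2
    cases σ u <;> cases σ u' <;> cases σ w <;> cases σ w' <;> decide

end Pool.Agent.Helper64.FL
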