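import Pool.Agent.Helper64.FL.StC

set_option autoImplicit false

namespace Pool.Agent.Helper64.FL

open Pool.Agent.Helper64.CT Pool.Agent.Helper64.DT
open Pool.Agent.Helper64.HG (Ovl Model Circ IC HellyCircle ChordModel)

theorem st_HT3 (hTTX : ST_TTX) (hHTA : ST_HTA) (hSGF : ST_SGF) (hRAY : ST_RAY)
    (hCNB : ST_CNB) : ST_HT3 := by
  intro V _ G Q σ hE x y z x3 y3 y1 z1 z2 x2 B1 B2 B3
  obtain ⟨-, -, hR3, hR4, -, -⟩ := hRAY V G Q hE.red.df hE.mx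
  obtain ⟨hsy, htr, hmo, -, hcc, -, -⟩ := hCNB V G
  have hxQ := B1.2.1.1
  have hyQ := B2.2.1.1
  have hzQ := B3.2.1.1
  have hxy : x ≠ y := B1.1
  have hyz : y ≠ z := B2.1
  have hzx : z ≠ x := B3.1
  have hZ : ∀ a b, ZZ G Q a b ⊆ Qᶜ := fun a b v hv => hv.1
  have hF : ∀ y ∈ Q, Far G y ⊆ Qᶜ := fun y hy v hv => hR3 y hy v hv
  have c1 : Cn G Qᶜ x3 y3 := hmo _ _ _ _ (hZ _ _) B1.2.2.2
  have c2 : Cn G Qᶜ y1 z1 := hmo _ _ _ _ (hZ _ _) B2.2.2.2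
  have c3 : Cn G Qᶜ z2 x2 := hmo _ _ _ _ (hZ _ _) B3.2.2.2
  have key : ∀ a0 b0 c0, RayQ G Q x a0 → RayQ G Q y b0 → RayQ G Q z c0 → Cn G Qᶜ a0 b0 →
      Cn G Qᶜ a0 c0 →
      xor (xor (σ x3) (σ y3)) (xor (xor (σ y1) (σ z1)) (xor (σ z2) (σ x2))) = true := by
    intro a0 b0 c0 ra rb rc hab hac
    rcases hTTX V G Q Qᶜ hE.red.df hE.ci hE.np hE.mx (fun v hv => hv) x y z a0 b0 c0 hxQ hyQ hzQ
      hxy (Ne.symm hzx) hyz ra.2.2 rb.2.2 rc.2.2 ra.2.1 rb.2.1 rc.2.1 hab hac with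
      ⟨a, la, a', b, lb, b', m, m', hT⟩ | ⟨a, la, a', b, lb, b', m, m', hT⟩ |
      ⟨a, la, a', b, lb, b', m, m', hT⟩
    · exact hHTA V G Q σ hE x y z a la a' b lb b' m m' x3 y3 y1 z1 z2 x2 hT B1 B2 B3
    · have := hHTA V G Q σ hE y z x a la a' b lb b' m m' y1 z1 z2 x2 x3 y3 hT B2 B3 B1
      revert this
      cases σ x3 <;> cases σ y3 <;> cases σ y1 <;> cases σ z1 <;> cases σ z2 <;> cases σ x2 <;>
        decide
    · have := hHTA V G Q σ hE z x y a la a' b lb b' m m' z2 x2 x3 y3 y1 z1 hT B3 B1 B2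
      revert this
      cases σ x3 <;> cases σ y3 <;> cases σ y1 <;> cases σ z1 <;> cases σ z2 <;> cases σ x2 <;>
        decide
  have cn : ∀ a b c u u', a ∈ Q → b ∈ Q → c ∈ Q → b ≠ a → c ≠ a → b ≠ c → RayQ G Q a u →
      RayQ G Q a u' → σ u = σ u' → Cn G Qᶜ u u' := by
    intro a b c u u' ha hb hc hba hca hbc ru ru' hs
    rcases (hSGF V G Q σ hE a u u' ru ru').1 hs b hb c hc hba hca hbc with h | h
    · exact hmo _ _ _ _ (hF b hb) ((hcc _ _ _).1 h)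
    · exact hmo _ _ _ _ (hF c hc) ((hcc _ _ _).1 h)
  by_cases e1 : σ x2 = σ x3
  · have c := cn x y z x2 x3 hxQ hyQ hzQ (Ne.symm hxy) hzx hyz B3.2.2.1 B1.2.1 e1
    exact key x3 y3 z2 B1.2.1 B1.2.2.1 B3.2.1 c1 (hsy _ _ _ (htr _ _ _ _ c3 c)).2
  · by_cases e2 : σ y1 = σ y3
    · have c := cn y x z y1 y3 hyQ hxQ hzQ hxy (Ne.symm hyz) (Ne.symm hzx) B2.2.1 B1.2.2.1 e2
      exact key x3 y3 z1 B1.2.1 B1.2.2.1 B2.2.2.1 c1
        (htr _ _ _ _ c1 (htr _ _ _ _ (hsy _ _ _ c).2 c2))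
    · by_cases e3 : σ z1 = σ z2
      · have c := cn z x y z1 z2 hzQ hxQ hyQ (Ne.symm hzx) hyz hxy B2.2.2.1 B3.2.1 e3
        exact key x2 y1 z2 B3.2.2.1 B2.2.1 B3.2.1
          (hsy _ _ _ (htr _ _ _ _ c2 (htr _ _ _ _ c c3))).2 (hsy _ _ _ c3).2
      · revert e1 e2 e3
        cases σ x3 <;> cases σ y3 <;> cases σ y1 <;> cases σ z1 <;> cases σ z2 <;> cases σ x2 <;>
          decide

end Pool.Agent.Helper64.FL
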