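import Pool.Agent.Helper64.FL.StC

set_option autoImplicit false

namespace Pool.Agent.Helper64.FL

open Pool.Agent.Helper64.CT Pool.Agent.Helper64.DT
open Pool.Agent.Helper64.HG (Ovl Model Circ IC HellyCircle ChordModel)

theorem st_LWR (hARX : ST_ARX) (hSTB : ST_STB) (hRAY : ST_RAY) : ST_LWR := by
  intro V G Q hDF hQ x y r E hL p hp hp'
  have hr3 := hL.r3
  obtain ⟨hR1, -, -, -, -, -⟩ := hRAY V G Q hDF hQ
  have hx0 := (hR1 x (E 0) y hL.ray0 hL.yQ hL.xy.symm).2
  have hErF := (hR1 x (E r) y hL.rayr hL.yQ hL.xy.symm).1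
  -- common attachments
  have hex : ∀ i, ∃ m, 1 ≤ i → i < r → m ∈ Att G y (E (i - 1)) ∧ m ∈ Att G y (E i) := by
    intro i
    by_cases hi : 1 ≤ i ∧ i < r
    · have hc := hL.cf (i - 1) (by omega)
      rw [show i - 1 + 1 = i by omega] at hc
      obtain ⟨-, ⟨u, hu, ⟨m, hm, hum⟩, -⟩, -⟩ := hc
      exact ⟨m, fun _ _ => ⟨⟨hm.1, u, hu, hum.symm⟩, hm⟩⟩
    · exact ⟨x, fun h1 h2 => absurd ⟨h1, h2⟩ hi⟩
  choose m0 hm0 using hex
  obtain ⟨n, hn⟩ : ∃ n : ℕ → V, n = fun i => if i = 0 then x else if i = r then p else m0 i :=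
    ⟨_, rfl⟩
  have n0 : n 0 = x := by rw [hn]; simp
  have nr : n r = p := by
    rw [hn]
    have : r ≠ 0 := by omega
    simp [this]
  have nm : ∀ i, 1 ≤ i → i < r → n i = m0 i := by
    intro i h1 h2
    rw [hn]
    have h3 : i ≠ 0 := by omega
    have h4 : i ≠ r := by omega
    simp [h3, h4]
  have nA : ∀ i, i < r → n i ∈ Att G y (E i) := by
    intro i hi
    by_cases h : i = 0
    · subst h
      rw [n0]; exact hx0
    · rw [nm i (by omega) hi]
      exact (hm0 i (by omega) hi).2
  have nB : ∀ i, 1 ≤ i → i ≤ r → n i ∈ Att G y (E (i - 1)) := by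
    intro i h1 hi
    by_cases h : i = r
    · subst h
      rw [nr]; exact hp
    · rw [nm i h1 (by omega)]
      exact (hm0 i h1 (by omega)).1
  have nC : ∀ i j, i < r → j ≤ r → j ≠ i → j ≠ i + 1 → n j ∉ Att G y (E i) := by
    intro i j hi hj h1 h2 hmem
    by_cases hj0 : j = 0
    · subst hj0
      rw [n0] at hmem
      exact hL.xat i (by omega) hi hmem
    · by_cases hjr : j = r
      · subst hjr
        rw [nr] at hmem
        exact hp' i (by omega) hmem
      · rcases lt_or_gt_of_ne h1 with h | h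
        · exact hL.dsj (j - 1) i (by omega) hi _ (nB j (by omega) hj) hmem
        · exact hL.dsj i j (by omega) (by omega) _ hmem (nA j (by omega))
  have nI : ∀ i j, i < j → j ≤ r → n i ≠ n j := by
    intro i j hij hj he
    by_cases h : j = i + 1
    · subst h
      by_cases hi : i = 0
      · subst hi
        have := nA 1 (by omega)
        rw [show (0 : ℕ) + 1 = 1 by rfl] at he
        rw [← he, n0] at this
        exact hL.xat 1 (by omega) (by omega) this
      · have h3 := nB i (by omega) (by omega)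
        rw [he] at h3
        exact nC (i - 1) (i + 1) (by omega) hj (by omega) (by omega) h3
    · have h3 := nA i (by omega)
      rw [he] at h3
      exact nC i j (by omega) hj (by omega) h h3
  obtain ⟨P, hP, hPC⟩ := hARX V G y (fun i => E (i - 1)) n 0 r (by omega)
    (fun i _ hi => ⟨by simpa using nA i hi, by simpa using nB (i + 1) (by omega) (by omega)⟩)
    (fun i j _ hi _ hj h1 h2 => by simpa using nC i j hi hj h1 h2)
    (fun i j _ hij hj => nI i j hij hj)
    (fun i j h0 hij hj => hL.ncm (i - 1) (j - 1) (by omega) (by omega))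
  have hadj : ∀ i, i < r → G.Adj (E r) (n i) := by
    have hall : ∀ i, i + 2 ≤ r → ∀ n ∈ Att G y (E i), G.Adj (E r) n := by
      rcases hL.cpl (E r) (Comp.refl hErF) with h | h
      · exact h
      · exact absurd hL.rayr.2.1.symm (h 0 (by omega) x hx0)
    intro i hi
    by_cases h : i = 0
    · subst h
      rw [n0]; exact hL.rayr.2.1.symm
    · exact hall (i - 1) (by omega) (n i) (nB i (by omega) (by omega))
  refine ⟨n, P, hP, n0, nr, ?_, ?_, ?_⟩
  · intro i h1 h2
    refine ⟨?_, nB i h1 (by omega), nA i h2⟩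
    intro hQi
    by_cases h : n i = x
    · have := nA i h2
      rw [h] at this
      exact hL.xat i h1 h2 this
    · exact hL.qat (i - 1) (by omega) (n i) hQi h (nB i h1 (by omega))
  · intro i hi u hu
    simpa using hPC i (by omega) hi u hu
  · intro i j hij hj
    exact (hSTB V G hDF y (E r) (n i) (n j) hErF.1 (nI i j hij (by omega)) (nA i (by omega)).1
      (nA j hj).1 (hadj i (by omega)) (hadj j hj)).1 hErF.2

end Pool.Agent.Helper64.FL
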