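import Pool.Agent.Helper64.FL.StC

set_option autoImplicit false

namespace Pool.Agent.Helper64.FL

open Pool.Agent.Helper64.CT Pool.Agent.Helper64.DT
open Pool.Agent.Helper64.HG (Ovl Model Circ IC HellyCircle ChordModel)

theorem st_R3S (hF : ST_F1X) (hRAY : ST_RAY) (hCNB : ST_CNB) (hPTB : ST_PTB) : ST_R3S := by
  intro V G Q hR hQ z y l m M h3 hne v
  by_contra hv
  push Not at hv
  obtain ⟨hvz, hv⟩ := hv
  obtain ⟨hR1, -, -, -, -, -⟩ := hRAY V G Q hR.df hQ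
  obtain ⟨-, -, -, -, -, -, hPC⟩ := hCNB V G
  obtain ⟨hrev, -, -, -, -, -⟩ := hPTB V G
  refine hF V G {u | u ≠ v} z y l m (fun e => hvz e.symm) ?_ ?_ ?_ ?_ (hR.naj v)
  · intro i hi
    obtain ⟨h1, h2, h4, -, -, -⟩ := h3 i hi
    obtain ⟨g1, g2⟩ := hv i hi
    refine ⟨fun e => g1 e.symm, hQ.1 z h2.1 (y i) h4.1 h1, ?_, (hR1 (y i) (l i) z h4 h2.1 h1).1,
      h4.2.1, ?_, h2.2.1⟩
    · intro e
      exact g2 (by rw [← e]; exact Or.inr (Or.inr rfl))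
    · intro e
      exact g2 (by rw [← e]; exact Or.inl rfl)
  · intro i hi j hj hij
    obtain ⟨-, -, h4, -, -, -⟩ := h3 i hi
    obtain ⟨-, -, h4', -, -, -⟩ := h3 j hj
    exact ⟨hQ.1 _ h4.1 _ h4'.1 (hne i hi j hj hij),
      (hR1 (y i) (l i) (y j) h4 h4'.1 (fun e => hne i hi j hj hij e.symm)).1⟩
  · intro i hi j hj
    obtain ⟨h1, h2, -, -, -, -⟩ := h3 i hi
    obtain ⟨h1', -, h4', -, -, -⟩ := h3 j hj
    exact (hR1 z (m i) (y j) h2 h4'.1 (fun e => h1' e.symm)).1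
  · intro i hi j hj hij
    obtain ⟨h1, h2, h4, h5, h6, -⟩ := h3 i hi
    obtain ⟨h1', -, h4', -, -, -⟩ := h3 j hj
    obtain ⟨g1, g2⟩ := hv i hi
    have key : ∀ u ∈ PV (m i) (M i) (l i), u ∈ {u | u ≠ v} ∩ Far G (y j) := by
      intro u hu
      have hz := h6 hu
      refine ⟨fun e => g2 (by rw [← e]; exact hu), fun e => hz.1 (by rw [e]; exact h4'.1),
        hz.2 (y j) h4'.1 (fun e => h1' e.symm) (fun e => hne i hi j hj hij e.symm)⟩
    refine hPC _ (l i) (M i).reverse (m i) (hrev _ _ _ h5) ⟨?_, ?_, ?_⟩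
    · exact key _ (Or.inr (Or.inr rfl))
    · exact key _ (Or.inl rfl)
    · intro u hu
      exact key u (Or.inr (Or.inl (List.mem_reverse.1 hu)))

end Pool.Agent.Helper64.FL
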